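import Pool.Agent.R153.SN4

set_option autoImplicit false

namespace Pool.Agent.Results.MP_c6faf2_co.SupernormAsymptotic

open Filter Topology Finset

/-- The `k`-th prime, counted from `p_1 = 2` (for `k ≥ 1`). -/
noncomputable def prime (k : ℕ) : ℕ := Nat.nth Nat.Prime (k - 1)

/-- The supernorm of a partition: the product of the primes `p_i` over the parts `i`. -/
noncomputable def supernorm {n : ℕ} (lam : n.Partition) : ℕ := (lam.parts.map prime).prod

/-- The sum of the reciprocal supernorms over all partitions of size `n`. -/
noncomputable def Wsize (n : ℕ) : ℝ := ∑ lam : n.Partition, 1 / (supernorm lam : ℝ)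

theorem prime_one : prime 1 = 2 := by
  unfold prime
  exact Nat.nth_prime_zero_eq_two

theorem Wsize_eq (n : ℕ) : Wsize n = Pool.Agent.R153.SN.w Pool.Agent.R153.SN.rp n := by
  unfold Wsize Pool.Agent.R153.SN.w
  apply Finset.sum_congr rfl
  intro p _
  unfold supernorm Pool.Agent.R153.SN.wt
  generalize p.parts = s
  induction s using Multiset.induction with
  | empty => simp
  | cons a s ih =>
    rw [Multiset.map_cons, Multiset.prod_cons, Multiset.map_cons, Multiset.prod_cons, ← ih]
    unfold Pool.Agent.R153.SN.rp prime
    push_cast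
    rw [one_div_mul_one_div]

/-- `n * Wsize n → e^γ`. -/
theorem result : Tendsto (fun n : ℕ => (n : ℝ) * Wsize n) atTop
    (𝓝 (Real.exp Real.eulerMascheroniConstant)) := by
  have h := Pool.Agent.R153.SN.final
  refine h.congr (fun n => ?_)
  rw [Wsize_eq]

end Pool.Agent.Results.MP_c6faf2_co.SupernormAsymptotic
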