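import Pool.Agent.R866.SN.Fin

/-!
# Reciprocal supernorms over partitions of fixed size

Full (positive) answer to MP_c6faf2_co: `n * ∑_{|λ| = n} 1 / N̂(λ) → e^γ`.
-/

namespace Pool.Agent.Results.MP_c6faf2_co.SupernormSize

open Filter Topology

/-- The supernorm of a multiset of positive integers: the product of the primes `p_k` over its
parts `k`, where `p_1 = 2, p_2 = 3, …` is the increasing enumeration of the primes
(`Nat.nth Nat.Prime 0 = 2`). -/
noncomputable def supernorm (s : Multiset ℕ) : ℝ :=
  (s.map fun k => ((Nat.nth Nat.Prime (k - 1) : ℕ) : ℝ)).prod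

/-- The sum of the reciprocal supernorms over all partitions of `n`. -/
noncomputable def Wsize (n : ℕ) : ℝ := ∑ p : Nat.Partition n, (supernorm p.parts)⁻¹

/-- **MP_c6faf2_co, Q1 (true).** `n * Ŵ_size(n) → e^γ` as `n → ∞`, that is
`Ŵ_size(n) ~ e^γ / n`. -/
theorem result : Tendsto (fun n : ℕ => (n : ℝ) * Wsize n) atTop
    (𝓝 (Real.exp Real.eulerMascheroniConstant)) :=
  Pool.Agent.R866.SN.main_ar.congr fun n => by
    rw [Pool.Agent.R866.SN.ar_eq]; rfl

end Pool.Agent.Results.MP_c6faf2_co.SupernormSize
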